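import Pool.Agent.SGP.Stmts

/-!
Squad SGP (MP_41797f_co), row STB: the second graph, the step.
-/

set_option autoImplicit false

namespace Pool.Agent.SGP.H10

open Pool.Agent.SGE

/-- the index is used -/
def Val (k : ℕ) : Fin 3 ⊕ ℕ → Prop
  | Sum.inl _ => True
  | Sum.inr i => i < k

variable {k : ℕ} {w : ℕ → Fin 3}

theorem A2_val {s t : Fin 3 ⊕ ℕ} (h : A2 k w s t) : Val k s ∧ Val k t := by
  rcases s with X | i <;> rcases t with Y | j
  · exact ⟨trivial, trivial⟩
  · exact ⟨trivial, h.1⟩
  · exact ⟨h.1, trivial⟩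
  · exact ⟨h.1, h.2.1⟩

theorem A2_symm {s t : Fin 3 ⊕ ℕ} (h : A2 k w s t) : A2 k w t s := by
  rcases s with X | i <;> rcases t with Y | j
  · exact Ne.symm h
  · exact h
  · exact h
  · exact ⟨h.2.1, h.1, h.2.2.symm⟩

/-- translation -/
def th : Fin 3 ⊕ ℕ → Fin 3 ⊕ ℕ
  | Sum.inl X => Sum.inl X
  | Sum.inr 0 => Sum.inl 2
  | Sum.inr (i + 1) => Sum.inr i

theorem A2_th (hw : w 0 = 2) {s t : Fin 3 ⊕ ℕ} (h : A2 (k + 1) w s t) (hs : s ≠ Sum.inl 2)
    (ht : t ≠ Sum.inl 2) : A2 k (fun i => w (i + 1)) (th s) (th t) := by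
  rcases s with X | _ | i <;> rcases t with Y | _ | j
  · exact h
  · show X ≠ 2
    intro e
    exact hs (by rw [e])
  · show j < k ∧ ∀ l, l < j → w (l + 1) ≠ X
    have h1 : j + 1 < k + 1 ∧ ∀ l, l < j + 1 → w l ≠ X := h
    exact ⟨by omega, fun l hl => h1.2 (l + 1) (by omega)⟩
  · show 2 ≠ Y
    intro e
    exact ht (by rw [← e])
  · exfalso
    have h1 := h.2.2
    rcases h1 with h1 | h1
    · exact absurd h1.1 (by omega)
    · exact absurd h1.1 (by omega)
  · show j < k ∧ ∀ l, l < j → w (l + 1) ≠ 2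
    have h0 : j + 1 < k + 1 := h.2.1
    rcases h.2.2 with h1 | h1
    · refine ⟨by omega, fun l hl => ?_⟩
      have := h1.2 (l + 1) (by omega) (by omega)
      rwa [hw] at this
    · exact absurd h1.1 (by omega)
  · show i < k ∧ ∀ l, l < i → w (l + 1) ≠ Y
    have h1 : i + 1 < k + 1 ∧ ∀ l, l < i + 1 → w l ≠ Y := h
    exact ⟨by omega, fun l hl => h1.2 (l + 1) (by omega)⟩
  · show i < k ∧ ∀ l, l < i → w (l + 1) ≠ 2
    have h0 : i + 1 < k + 1 := h.1
    rcases h.2.2 with h1 | h1
    · exact absurd h1.1 (by omega)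
    · refine ⟨by omega, fun l hl => ?_⟩
      have := h1.2 (l + 1) (by omega) (by omega)
      rwa [hw] at this
  · show i < k ∧ j < k ∧ ((i < j ∧ ∀ l, i < l → l < j → w (l + 1) ≠ w (i + 1)) ∨
      (j < i ∧ ∀ l, j < l → l < i → w (l + 1) ≠ w (j + 1)))
    have h0 : i + 1 < k + 1 := h.1
    have h00 : j + 1 < k + 1 := h.2.1
    refine ⟨by omega, by omega, ?_⟩
    rcases h.2.2 with h1 | h1
    · left
      have h2 : i + 1 < j + 1 := h1.1
      exact ⟨by omega, fun l hl hl' => h1.2 (l + 1) (by omega) (by omega)⟩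
    · right
      have h2 : j + 1 < i + 1 := h1.1
      exact ⟨by omega, fun l hl hl' => h1.2 (l + 1) (by omega) (by omega)⟩

theorem A2_top (hw : w 0 = 2) {t : Fin 3 ⊕ ℕ} (h : A2 (k + 1) w (Sum.inl 2) t) :
    t = Sum.inl 0 ∨ t = Sum.inl 1 ∨ t = Sum.inr 0 := by
  rcases t with Y | _ | j
  · have h1 : (2 : Fin 3) ≠ Y := h
    have h2 : ∀ Y : Fin 3, 2 ≠ Y → Y = 0 ∨ Y = 1 := by decide
    rcases h2 Y h1 with e | e
    · left; rw [e]
    · right; left; rw [e]
  · right; right; rfl
  · exfalso
    exact h.2 0 (by omega) hw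

theorem Xs_symm {p q r s : ℝ × ℝ} (h : Xs p q r s) : Xs r s p q := ⟨h.2, h.1⟩

theorem Xs_swap {p q r s : ℝ × ℝ} (h : Xs p q r s) : Xs q p r s := by
  refine ⟨?_, ?_⟩
  · have h1 := h.1
    have e : o q p r * o q p s = o p q r * o p q s := by unfold o; ring
    rwa [e]
  · have h1 := h.2
    rwa [mul_comm]

theorem stb (hNXS : NxsStmt) : StbStmt := by
  intro V _ _ a b c E E' F F' P p v q mid Q k w f π X hN hC hw hG hX hins π' hπ0 hπs
  -- corners
  have hac : a ≠ c := by
    have h1 := hN.nd
    intro e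
    rw [List.nodup_cons] at h1
    exact h1.1 (by rw [e]; exact List.mem_cons_self)
  have hcb : c ≠ b := by
    have h1 := hN.nd
    intro e
    rw [List.nodup_cons, List.nodup_cons] at h1
    exact h1.2.1 (by rw [e]; exact List.mem_cons_self)
  have haZ : a ∈ P ++ p :: (mid ++ q :: Q) := List.mem_of_head? hC.hd
  have hbZ : b ∈ P ++ p :: (mid ++ q :: Q) := List.mem_of_getLast? hC.ls
  have hca : E' c a := (hC.nc' a).2 haZ
  have hcb' : E' c b := (hC.nc' b).2 hbZ
  have hRc : Rel E' c := ⟨a, hca⟩
  have hRa : Rel E' a := ⟨c, hC.nt.sym _ _ hca⟩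
  have hRb : Rel E' b := ⟨c, hC.nt.sym _ _ hcb'⟩
  have hv' : ¬ Rel E' v := fun ⟨y, hy⟩ => hC.iso y hy
  have hpv : ∀ i, i < k → π i ≠ v := by
    intro i hi e
    have h1 := (hG.pin i hi).2.2.2
    rw [e] at h1
    exact hv' h1
  have hpR : ∀ i, i < k → Rel E' (π i) := fun i hi => (hG.pin i hi).2.2.2
  have hp1 : ∀ i, i < k + 1 → π' i ∈ Inn a b c E := by
    intro i hi
    rcases i with _ | i
    · rw [hπ0]
      exact ⟨hC.va, hC.vb, hC.vc, (hC.rel v).2 (Or.inl rfl)⟩
    · rw [hπs]
      have h1 := hG.pin i (by omega)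
      exact ⟨h1.1, h1.2.1, h1.2.2.1, (hC.rel _).2 (Or.inr h1.2.2.2)⟩
  refine ⟨hp1, ?_, ?_, ?_⟩
  · intro i j hi hj e
    rcases i with _ | i <;> rcases j with _ | j
    · rfl
    · rw [hπ0, hπs] at e
      exact absurd e.symm (hpv j (by omega))
    · rw [hπ0, hπs] at e
      exact absurd e (hpv i (by omega))
    · rw [hπs, hπs] at e
      rw [hG.pij i j (by omega) (by omega) e]
  · intro x hx
    rcases (hC.rel x).1 hx.2.2.2 with e | h
    · exact ⟨0, by omega, by rw [hπ0, e]⟩
    · obtain ⟨i, hi, e⟩ := hG.psu x ⟨hx.1, hx.2.1, hx.2.2.1, h⟩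
      exact ⟨i + 1, by omega, by rw [hπs, e]⟩
  -- the second graph
  have ga : Function.update f v X a = f a := Function.update_of_ne (Ne.symm hC.va) _ _
  have gb : Function.update f v X b = f b := Function.update_of_ne (Ne.symm hC.vb) _ _
  have gc : Function.update f v X c = f c := Function.update_of_ne (Ne.symm hC.vc) _ _
  have gv : Function.update f v X v = X := Function.update_self _ _ _
  have hU : ∀ s, Val (k + 1) s → (vx a b c π' s = a ∨ vx a b c π' s = b ∨ vx a b c π' s = c ∨
      vx a b c π' s ∈ Inn a b c E) := by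
    intro s hs
    rcases s with Y | i
    · fin_cases Y
      · left; rfl
      · right; left; rfl
      · right; right; left; rfl
    · right; right; right
      exact hp1 i hs
  have hR : ∀ s, Val (k + 1) s → (vx a b c π' s = v ∨ Rel E' (vx a b c π' s)) := by
    intro s hs
    rcases hU s hs with e | e | e | h
    · right; rw [e]; exact hRa
    · right; rw [e]; exact hRb
    · right; rw [e]; exact hRc
    · exact (hC.rel _).1 h.2.2.2
  have hc : ∀ s, Val (k + 1) s → s ≠ Sum.inl 2 → vx a b c π' s ≠ c := by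
    intro s hs hs2
    rcases s with Y | i
    · have h2 : ∀ Y : Fin 3, Y ≠ 2 → Y = 0 ∨ Y = 1 := by decide
      rcases h2 Y (fun e => hs2 (by rw [e])) with e | e
      · rw [e]; exact hac
      · rw [e]; exact Ne.symm hcb
    · exact (hp1 i hs).2.2.1
  have hη : ∀ s, Val (k + 1) s → s ≠ Sum.inl 2 →
      (if vx a b c π' s = v then c else vx a b c π' s) = vx a b c π (th s) := by
    intro s hs hs2
    rcases s with Y | _ | i
    · have h2 : ∀ Y : Fin 3, Y ≠ 2 → Y = 0 ∨ Y = 1 := by decide
      rcases h2 Y (fun e => hs2 (by rw [e])) with e | e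
      · rw [e]
        show (if a = v then c else a) = a
        rw [if_neg (Ne.symm hC.va)]
      · rw [e]
        show (if b = v then c else b) = b
        rw [if_neg (Ne.symm hC.vb)]
    · show (if π' 0 = v then c else π' 0) = c
      rw [if_pos hπ0]
    · show (if π' (i + 1) = v then c else π' (i + 1)) = π i
      have h1 : i + 1 < k + 1 := hs
      rw [hπs, if_neg (hpv i (by omega))]
  have top : ∀ t s' t', A2 (k + 1) w (Sum.inl 2) t → A2 (k + 1) w s' t' →
      ¬ Xs (Function.update f v X (vx a b c π' (Sum.inl 2)))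
        (Function.update f v X (vx a b c π' t)) (Function.update f v X (vx a b c π' s'))
        (Function.update f v X (vx a b c π' t')) := by
    intro t s' t' h1 h2 hx
    have hs' := (A2_val h2).1
    have ht' := (A2_val h2).2
    have e2 : vx a b c π' (Sum.inl 2) = c := rfl
    rw [e2] at hx
    have htri := hG.tri
    rcases A2_top hw h1 with e | e | e
    · have e3 : vx a b c π' t = a := by rw [e]; rfl
      rw [e3] at hx
      have hpos : ∀ s, Val (k + 1) s → 0 ≤ o (Function.update f v X c) (Function.update f v X a)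
          (Function.update f v X (vx a b c π' s)) := by
        intro s hs
        rcases hU s hs with e | e | e | h
        · rw [e]
          refine le_of_eq ?_
          unfold o; ring
        · rw [e, ga, gb, gc]
          have : o (f c) (f a) (f b) = o (f a) (f b) (f c) := by unfold o; ring
          rw [this]; exact htri.le
        · rw [e]
          refine le_of_eq ?_
          unfold o; ring
        · exact (hins _ h).2.2.le
      have := mul_nonneg (hpos s' hs') (hpos t' ht')
      linarith [hx.1]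
    · have e3 : vx a b c π' t = b := by rw [e]; rfl
      rw [e3] at hx
      have hneg : ∀ s, Val (k + 1) s → o (Function.update f v X c) (Function.update f v X b)
          (Function.update f v X (vx a b c π' s)) ≤ 0 := by
        intro s hs
        rcases hU s hs with e | e | e | h
        · rw [e, ga, gb, gc]
          have : o (f c) (f b) (f a) = -o (f a) (f b) (f c) := by unfold o; ring
          rw [this]; linarith
        · rw [e]
          refine le_of_eq ?_
          unfold o; ring
        · rw [e]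
          refine le_of_eq ?_
          unfold o; ring
        · have h3 := (hins _ h).2.1
          have : o (Function.update f v X c) (Function.update f v X b)
              (Function.update f v X (vx a b c π' s)) =
              -o (Function.update f v X b) (Function.update f v X c)
              (Function.update f v X (vx a b c π' s)) := by unfold o; ring
          rw [this]; linarith
      have := mul_nonneg_of_nonpos_of_nonpos (hneg s' hs') (hneg t' ht')
      linarith [hx.1]
    · have e3 : vx a b c π' t = v := by rw [e]; exact hπ0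
      rw [e3, gv, gc] at hx
      have h3 := hx.2
      -- the two ends
      obtain ⟨y, hy⟩ : ∃ y, y = vx a b c π' s' := ⟨_, rfl⟩
      obtain ⟨z, hz⟩ : ∃ z, z = vx a b c π' t' := ⟨_, rfl⟩
      rw [← hy, ← hz] at h3
      have hRy := hR s' hs'
      have hRz := hR t' ht'
      rw [← hy] at hRy
      rw [← hz] at hRz
      have z1 : ∀ A B : ℝ × ℝ, o A B A = 0 := by intro A B; unfold o; ring
      have z2 : ∀ A B : ℝ × ℝ, o A B B = 0 := by intro A B; unfold o; ring
      have z3 : ∀ A B : ℝ × ℝ, o A A B = 0 := by intro A B; unfold o; ring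
      by_cases hyv : y = v
      · rw [hyv, gv, z1, mul_zero] at h3
        exact lt_irrefl _ h3
      by_cases hzv : z = v
      · rw [hzv, gv, z2, mul_zero] at h3
        exact lt_irrefl _ h3
      by_cases hyc : y = c
      · rw [hyc, gc, z1, zero_mul] at h3
        exact lt_irrefl _ h3
      by_cases hzc : z = c
      · rw [hzc, gc, z2, zero_mul] at h3
        exact lt_irrefl _ h3
      by_cases hyz : y = z
      · rw [hyz, z3, z3, mul_zero] at h3
        exact lt_irrefl _ h3
      rw [Function.update_of_ne hyv, Function.update_of_ne hzv] at h3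
      have h4 := hX.near y z (hRy.resolve_left hyv) (hRz.resolve_left hzv) hyc hzc hyz
      have e4 : o X (f y) (f z) = o (f y) (f z) X := by unfold o; ring
      have e5 : o (f c) (f y) (f z) = o (f y) (f z) (f c) := by unfold o; ring
      rw [e4, e5, mul_comm] at h4
      linarith
  intro s t s' t' h1 h2 hx
  by_cases hs : s = Sum.inl 2
  · rw [hs] at hx h1
    exact top t s' t' h1 h2 hx
  by_cases ht : t = Sum.inl 2
  · rw [ht] at hx h1
    exact top s s' t' (A2_symm h1) h2 (Xs_swap hx)
  by_cases hs' : s' = Sum.inl 2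
  · rw [hs'] at hx h2
    exact top t' s t h2 h1 (Xs_symm hx)
  by_cases ht' : t' = Sum.inl 2
  · rw [ht'] at hx h2
    exact top s' s t (A2_symm h2) h1 (Xs_swap (Xs_symm hx))
  have v1 := A2_val h1
  have v2 := A2_val h2
  have h3 := hNXS hX hC.vc _ _ _ _ (hc s v1.1 hs) (hc t v1.2 ht) (hc s' v2.1 hs')
    (hc t' v2.2 ht') (hR s v1.1) (hR t v1.2) (hR s' v2.1) (hR t' v2.2) hx
  rw [hη s v1.1 hs, hη t v1.2 ht, hη s' v2.1 hs', hη t' v2.2 ht'] at h3
  exact hG.cr2 _ _ _ _ (A2_th hw h1 hs ht) (A2_th hw h2 hs' ht') h3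

end Pool.Agent.SGP.H10
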